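import Pool.Agent.H70.EN.Targets

/-!
# The multiples of a prime in a window (row SCL)
-/

set_option autoImplicit false

namespace Pool.Agent.H35.EN

open Finset Pool.Agent.H6.N4D Pool.Agent.H93.EB Pool.Agent.H70.EN

theorem scl_image (q N n : ℕ) (hq : 0 < q) :
    (Ioc n (n + N)).filter (fun m => q ∣ m) =
      (Ioc (n / q) ((n + N) / q)).image (fun b => q * b) := by
  ext m
  simp only [mem_filter, mem_Ioc, mem_image]
  constructor
  · rintro ⟨⟨h1, h2⟩, b, rfl⟩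
    refine ⟨b, ⟨?_, ?_⟩, rfl⟩
    · rw [Nat.div_lt_iff_lt_mul hq, mul_comm b q]
      exact h1
    · rw [Nat.le_div_iff_mul_le hq, mul_comm b q]
      exact h2
  · rintro ⟨b, ⟨h1, h2⟩, rfl⟩
    rw [Nat.div_lt_iff_lt_mul hq, mul_comm b q] at h1
    rw [Nat.le_div_iff_mul_le hq, mul_comm b q] at h2
    exact ⟨⟨h1, h2⟩, dvd_mul_right q b⟩

theorem scl_sum (lam : ℕ → ℝ) (hl : Lio lam) (q N n : ℕ) (hq : q.Prime) (θ : ℝ) :
    ∑ m ∈ (Ioc n (n + N)).filter (fun m => q ∣ m), (lam m : ℂ) * ee (-(θ * m)) =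
      -∑ b ∈ Ioc (n / q) ((n + N) / q), (lam b : ℂ) * ee (-(q * θ * b)) := by
  rw [scl_image q N n hq.pos, sum_image, ← sum_neg_distrib]
  · apply sum_congr rfl
    intro b hb
    rw [mem_Ioc] at hb
    have hb1 : 1 ≤ b := Nat.succ_le_of_lt (Nat.lt_of_le_of_lt (Nat.zero_le _) hb.1)
    rw [hl.pr q b hq hb1]
    push_cast
    have e : θ * (q * b) = q * θ * b := by ring
    rw [e]
    ring
  · intro x _ y _ hxy
    exact Nat.eq_of_mul_eq_mul_left hq.pos hxy

theorem scl_split (lam : ℕ → ℝ) (hl : Lio lam) (a K b : ℕ) (hb : b = a + K ∨ b = a + K + 1)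
    (θ : ℝ) : ∃ r : ℂ, ‖r‖ ≤ 1 ∧ ∑ m ∈ Ioc a b, (lam m : ℂ) * ee (-(θ * m)) =
      ∑ m ∈ Ioc a (a + K), (lam m : ℂ) * ee (-(θ * m)) + r := by
  rcases hb with hb | hb
  · exact ⟨0, by simp, by rw [hb, add_zero]⟩
  · refine ⟨(lam b : ℂ) * ee (-(θ * b)), ?_, ?_⟩
    · rw [norm_mul, norm_ee, mul_one, Complex.norm_real]
      rcases hl.pm b with h | h <;> rw [h] <;> simp
    · rw [hb, Finset.sum_Ioc_succ_top (Nat.le_add_right a K)]

theorem pf_SCL (h1 : T_MAT) (h2 : T_MBD) : T_SCL := by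
  intro lam q N n hl hq hqN
  have hb1 : ∀ k, |lam k| ≤ 1 := by
    intro k
    rcases hl.pm k with h | h <;> rw [h] <;> simp
  have hq0 : (0 : ℝ) < q := by exact_mod_cast hq.pos
  have hN0 : (0 : ℝ) < N := by
    have : 0 < N := lt_of_lt_of_le hq.pos hqN
    exact_mod_cast this
  set K : ℕ := N / q with hK
  have hK1 : 1 ≤ K := (Nat.one_le_div_iff hq.pos).2 hqN
  have hK0 : (0 : ℝ) < K := by exact_mod_cast hK1
  have hKa : q * K ≤ N := Nat.mul_div_le N q
  have hKb : N < q * (K + 1) := Nat.lt_mul_div_succ N hq.pos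
  have hKa' : (q : ℝ) * K ≤ N := by exact_mod_cast hKa
  have hKb' : (N : ℝ) < q * (K + 1) := by exact_mod_cast hKb
  have hends : (n + N) / q = n / q + K ∨ (n + N) / q = n / q + K + 1 := by
    have e1 := Nat.div_add_mod n q
    have e2 := Nat.div_add_mod N q
    have e3 := Nat.mod_lt n hq.pos
    have e4 := Nat.mod_lt N hq.pos
    rw [Nat.add_div hq.pos]
    split_ifs
    · right; rfl
    · left; rfl
  have hM1 : M lam K (n / q) ≤ 1 := (h2 lam q K (n / q) hb1).2.1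
  -- comparison at one frequency
  have hcomp : ∀ θ : ℝ, |‖crq lam q N n θ‖ - ‖cr lam K (n / q) (q * θ)‖| ≤ 2 * q / N := by
    intro θ
    obtain ⟨r, hr, hs⟩ := scl_split lam hl (n / q) K ((n + N) / q) hends (q * θ)
    have e1 : crq lam q N n θ =
        -((q * K / N : ℝ) : ℂ) * cr lam K (n / q) (q * θ) - ((q / N : ℝ) : ℂ) * r := by
      unfold crq cr
      rw [scl_sum lam hl q N n hq θ, hs]
      have hKc : (K : ℂ) ≠ 0 := by exact_mod_cast hK0.ne'
      have hNc : (N : ℂ) ≠ 0 := by exact_mod_cast hN0.ne'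
      push_cast
      field_simp
      ring
    have hc1 : ‖cr lam K (n / q) (q * θ)‖ ≤ 1 := ((h1 lam q K (n / q)).2.1 _).trans hM1
    have hA : ‖((q * K / N : ℝ) : ℂ) * cr lam K (n / q) (q * θ)‖ =
        q * K / N * ‖cr lam K (n / q) (q * θ)‖ := by
      rw [norm_mul, Complex.norm_real, Real.norm_of_nonneg (by positivity)]
    have hB : ‖((q / N : ℝ) : ℂ) * r‖ ≤ q / N := by
      rw [norm_mul, Complex.norm_real, Real.norm_of_nonneg (by positivity)]
      calc (q : ℝ) / N * ‖r‖ ≤ q / N * 1 := by gcongr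
        _ = q / N := mul_one _
    have e2 : |‖crq lam q N n θ‖ - q * K / N * ‖cr lam K (n / q) (q * θ)‖| ≤ q / N := by
      rw [← hA]
      have e3 : ‖crq lam q N n θ‖ = ‖((q * K / N : ℝ) : ℂ) * cr lam K (n / q) (q * θ) +
          ((q / N : ℝ) : ℂ) * r‖ := by
        rw [e1, ← norm_neg]
        congr 1
        ring
      rw [e3]
      refine (abs_norm_sub_norm_le _ _).trans ?_
      rw [add_sub_cancel_left]
      exact hB
    have e4 : |q * K / N * ‖cr lam K (n / q) (q * θ)‖ - ‖cr lam K (n / q) (q * θ)‖| ≤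
        q / N := by
      have e5 : q * K / N * ‖cr lam K (n / q) (q * θ)‖ - ‖cr lam K (n / q) (q * θ)‖ =
          -((1 - q * K / N) * ‖cr lam K (n / q) (q * θ)‖) := by ring
      have e6 : 0 ≤ 1 - (q : ℝ) * K / N := by
        rw [sub_nonneg, div_le_one hN0]
        exact hKa'
      have e7 : 1 - (q : ℝ) * K / N ≤ q / N := by
        rw [sub_le_iff_le_add, ← add_div, le_div_iff₀ hN0, one_mul]
        linarith
      rw [e5, abs_neg, abs_of_nonneg (mul_nonneg e6 (norm_nonneg _))]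
      calc (1 - (q : ℝ) * K / N) * ‖cr lam K (n / q) (q * θ)‖ ≤ q / N * 1 := by gcongr
        _ = q / N := mul_one _
    rw [abs_le] at e2 e4 ⊢
    have e8 : 2 * (q : ℝ) / N = q / N + q / N := by ring
    rw [e8]
    constructor <;> linarith [e2.1, e2.2, e4.1, e4.2]
  obtain ⟨-, -, ⟨θ₀, -, -, hθ₀⟩, hle⟩ := h1 lam q N n
  obtain ⟨⟨θ₁, -, -, hθ₁⟩, hle', -, -⟩ := h1 lam q K (n / q)
  rw [abs_le]
  constructor
  · have e1 := hcomp (θ₁ / q)
    rw [mul_div_cancel₀ _ hq0.ne', ← hθ₁, abs_le] at e1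
    have e2 := hle (θ₁ / q)
    linarith [e1.1]
  · have e1 := hcomp θ₀
    rw [← hθ₀, abs_le] at e1
    have e2 := hle' (q * θ₀)
    linarith [e1.2]

end Pool.Agent.H35.EN
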