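import Pool.Agent.H93.EN.Targets4

/-!
MP_009700_an, board en_modules, row CI: the circle lemma.
-/

namespace Pool.Agent.H35.EN

open MeasureTheory Set Metric Filter Topology Pool.Agent.H93.EN
open Pool.Agent.H93.BL hiding T_B1 T_B2 T_B3 T_SB T_SC

theorem cont_wd (a b : ℂ) (l : List Bool) : Continuous (wd a b l) := by
  induction l with
  | nil =>
    unfold wd
    exact continuous_id
  | cons t l ih =>
    have h : wd a b (t :: l) = fun w => rf (if t then a else b) (wd a b l w) := rfl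
    rw [h]
    unfold rf
    exact continuous_const.mul (Complex.continuous_conj.comp ih)

theorem cont_ex : Continuous fun θ : ℝ => Complex.exp ((θ : ℂ) * Complex.I) :=
  Complex.continuous_exp.comp (Complex.continuous_ofReal.mul continuous_const)

theorem ci (h1 : T_CI1) (h2 : T_CI2) : T_CI := by
  classical
  intro a b S ha hb hS hcov ε hε
  have hpi := Real.pi_pos
  obtain ⟨T₁, hT₁, hvol⟩ := h1 a b S ha hb (fun p hp => (hS p hp).2) hcov (Real.pi * ε)
    (mul_pos hpi hε)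
  obtain ⟨ε₁, hε₁⟩ : ∃ ε₁ : ℝ, ε₁ = Real.pi * ε / (T₁.card + 1) := ⟨_, rfl⟩
  have hε₁0 : 0 < ε₁ := by
    rw [hε₁]
    positivity
  have hch : ∀ t : List Bool × (ℂ × ℝ), ∃ (K : ℕ) (C : ℝ), 0 < C ∧ (t ∈ T₁ →
      ∀ (g g' : ℂ → ℝ) (e : ℝ), Measurable g → Measurable g' → (∀ w, 0 ≤ g w ∧ g w ≤ 1) →
      (∀ w, 0 ≤ g' w ∧ g' w ≤ 1) → (∀ w, ‖w‖ = 1 → ‖w - t.2.1‖ < t.2.2 → g' w = 0) →
      (∀ k : ℤ, |k| ≤ K → |(md g k * a ^ k).im| ≤ e ∧ |(md g k * b ^ k).im| ≤ e ∧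
        ‖md g k - md g' k‖ ≤ e) →
      ∫ θ in {θ : ℝ | θ ∈ Ioo 0 (2 * Real.pi) ∧
        ‖wd a b t.1 (Complex.exp ((θ : ℂ) * Complex.I)) - t.2.1‖ < t.2.2 / 2},
          g (Complex.exp ((θ : ℂ) * Complex.I)) ≤ ε₁ + C * e) := by
    intro t
    by_cases ht : t ∈ T₁
    · obtain ⟨K, C, hC, h⟩ := h2 a b t.2.1 t.2.2 ε₁ t.1 ha hb (hS _ (hT₁ t ht)).1
        (hS _ (hT₁ t ht)).2 hε₁0
      exact ⟨K, C, hC, fun _ => h⟩
    · exact ⟨0, 1, one_pos, fun h => absurd h ht⟩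
  choose K C hC hKC using hch
  refine ⟨T₁.image Prod.snd, ∑ t ∈ T₁, K t, 1 + ∑ t ∈ T₁, C t, ?_, ?_, ?_⟩
  · intro p hp
    obtain ⟨t, ht, rfl⟩ := Finset.mem_image.1 hp
    exact hT₁ t ht
  · have : 0 ≤ ∑ t ∈ T₁, C t := Finset.sum_nonneg fun t _ => (hC t).le
    linarith
  intro g e hg hg1 he hmod hex
  -- the sets
  obtain ⟨G, hG⟩ : ∃ G : ℝ → ℝ, G = fun θ : ℝ => g (Complex.exp ((θ : ℂ) * Complex.I)) :=
    ⟨_, rfl⟩
  have hGm : Measurable G := by
    rw [hG]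
    exact hg.comp cont_ex.measurable
  have hG0 : ∀ θ, 0 ≤ G θ := by
    intro θ
    rw [hG]
    exact (hg1 _).1
  have hG1 : ∀ θ, G θ ≤ 1 := by
    intro θ
    rw [hG]
    exact (hg1 _).2
  obtain ⟨A, hA⟩ : ∃ A : List Bool × (ℂ × ℝ) → Set ℝ, A = fun t => {θ : ℝ |
      θ ∈ Ioo 0 (2 * Real.pi) ∧
        ‖wd a b t.1 (Complex.exp ((θ : ℂ) * Complex.I)) - t.2.1‖ < t.2.2 / 2} := ⟨_, rfl⟩
  obtain ⟨X₀, hX₀⟩ : ∃ X₀ : Set ℝ, X₀ = {θ : ℝ | θ ∈ Ioo 0 (2 * Real.pi) ∧ ∀ t ∈ T₁,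
      t.2.2 / 2 ≤ ‖wd a b t.1 (Complex.exp ((θ : ℂ) * Complex.I)) - t.2.1‖} := ⟨_, rfl⟩
  have hcn : ∀ t : List Bool × (ℂ × ℝ), Continuous fun θ : ℝ =>
      ‖wd a b t.1 (Complex.exp ((θ : ℂ) * Complex.I)) - t.2.1‖ := by
    intro t
    exact (((cont_wd a b t.1).comp cont_ex).sub continuous_const).norm
  have hAm : ∀ t, MeasurableSet (A t) := by
    intro t
    rw [hA]
    exact measurableSet_Ioo.inter (measurableSet_lt (hcn t).measurable measurable_const)
  have hXe : X₀ = Ioo 0 (2 * Real.pi) \ ⋃ t ∈ T₁, A t := by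
    rw [hX₀, hA]
    ext θ
    simp only [mem_ofPred_eq, Set.mem_sdiff, mem_iUnion, not_exists, not_and, not_lt]
    constructor
    · rintro ⟨h3, h4⟩
      exact ⟨h3, fun t ht _ => h4 t ht⟩
    · rintro ⟨h3, h4⟩
      exact ⟨h3, fun t ht => h4 t ht h3⟩
  have hXm : MeasurableSet X₀ := by
    rw [hXe]
    exact measurableSet_Ioo.diff (Finset.measurableSet_biUnion T₁ fun t _ => hAm t)
  have hfin : volume (Ioo (0 : ℝ) (2 * Real.pi)) ≠ ⊤ := by
    rw [Real.volume_Ioo]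
    exact ENNReal.ofReal_ne_top
  have hint : ∀ s : Set ℝ, s ⊆ Ioo (0 : ℝ) (2 * Real.pi) → IntegrableOn G s volume := by
    intro s hs
    have h3 : IntegrableOn (fun _ : ℝ => (1 : ℝ)) s volume := by
      refine integrableOn_const ?_
      exact ne_top_of_le_ne_top hfin (measure_mono hs)
    refine Integrable.mono h3 hGm.aestronglyMeasurable (ae_of_all _ fun θ => ?_)
    rw [Real.norm_of_nonneg (hG0 θ), norm_one]
    exact hG1 θ
  have hAs : ∀ t, A t ⊆ Ioo (0 : ℝ) (2 * Real.pi) := by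
    intro t θ hθ
    rw [hA] at hθ
    exact hθ.1
  have hXs : X₀ ⊆ Ioo (0 : ℝ) (2 * Real.pi) := by
    rw [hXe]
    exact sdiff_subset
  -- the integral over the interval
  have hI : ∫ θ in Ioo (0 : ℝ) (2 * Real.pi), G θ ≤
      (∫ θ in X₀, G θ) + ∑ t ∈ T₁, ∫ θ in A t, G θ := by
    rw [← integral_indicator measurableSet_Ioo, ← integral_indicator hXm,
      Finset.sum_congr rfl fun t _ => (integral_indicator (hAm t)).symm,
      ← integral_finsetSum T₁ fun t _ => (hint _ (hAs t)).integrable_indicator (hAm t),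
      ← integral_add ((hint _ hXs).integrable_indicator hXm)
        (integrable_finsetSum _ fun t _ => (hint _ (hAs t)).integrable_indicator (hAm t))]
    refine integral_mono ((hint _ subset_rfl).integrable_indicator measurableSet_Ioo)
      (((hint _ hXs).integrable_indicator hXm).add
        (integrable_finsetSum _ fun t _ => (hint _ (hAs t)).integrable_indicator (hAm t))) ?_
    intro θ
    show (Ioo (0 : ℝ) (2 * Real.pi)).indicator G θ ≤
      X₀.indicator G θ + ∑ t ∈ T₁, (A t).indicator G θ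
    have h0 : ∀ s : Set ℝ, 0 ≤ s.indicator G θ := fun s => indicator_nonneg (fun x _ => hG0 x) θ
    have hs0 : 0 ≤ ∑ t ∈ T₁, (A t).indicator G θ := Finset.sum_nonneg fun t _ => h0 _
    by_cases hθ : θ ∈ Ioo (0 : ℝ) (2 * Real.pi)
    · rw [indicator_of_mem hθ]
      by_cases hθX : θ ∈ X₀
      · rw [indicator_of_mem hθX]
        linarith
      · rw [hXe] at hθX
        have h3 : θ ∈ ⋃ t ∈ T₁, A t := by
          by_contra h4
          exact hθX ⟨hθ, h4⟩
        simp only [mem_iUnion] at h3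
        obtain ⟨t, ht, hθt⟩ := h3
        have h5 := Finset.single_le_sum (f := fun t => (A t).indicator G θ)
          (fun t _ => h0 (A t)) ht
        have h6 : (A t).indicator G θ = G θ := indicator_of_mem hθt G
        have h7 := h0 X₀
        have h8 : (A t).indicator G θ ≤ ∑ t ∈ T₁, (A t).indicator G θ := h5
        linarith
    · rw [indicator_of_notMem hθ]
      have h7 := h0 X₀
      linarith
  have hX : ∫ θ in X₀, G θ ≤ Real.pi * ε := by
    have h3 : ∫ θ in X₀, G θ ≤ ∫ θ in X₀, (1 : ℝ) := by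
      refine setIntegral_mono_on (hint _ hXs) ?_ hXm fun θ _ => hG1 θ
      exact integrableOn_const (ne_top_of_le_ne_top hfin (measure_mono hXs))
    refine h3.trans ?_
    rw [setIntegral_const, smul_eq_mul, mul_one]
    rw [← hX₀] at hvol
    unfold Measure.real
    exact ENNReal.toReal_le_of_le_ofReal (mul_pos hpi hε).le hvol
  have hAt : ∀ t ∈ T₁, ∫ θ in A t, G θ ≤ ε₁ + C t * e := by
    intro t ht
    obtain ⟨g', hg'm, hg'1, hg'0, hg'e⟩ := hex t.2 (Finset.mem_image_of_mem _ ht)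
    have hKt : K t ≤ ∑ t ∈ T₁, K t := Finset.single_le_sum (f := K) (fun _ _ => Nat.zero_le _) ht
    have h3 := hKC t ht g g' e hg hg'm hg1 hg'1 hg'0 (fun k hk => by
      have hk' : |k| ≤ ((∑ t ∈ T₁, K t : ℕ) : ℤ) := hk.trans (by exact_mod_cast hKt)
      exact ⟨(hmod k hk').1, (hmod k hk').2, hg'e k hk'⟩)
    rw [hA, hG]
    exact h3
  have hsum : ∑ t ∈ T₁, ∫ θ in A t, G θ ≤ Real.pi * ε + (∑ t ∈ T₁, C t) * e := by
    refine (Finset.sum_le_sum hAt).trans ?_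
    rw [Finset.sum_add_distrib, Finset.sum_const, nsmul_eq_mul, ← Finset.sum_mul]
    have h3 : (T₁.card : ℝ) * ε₁ ≤ Real.pi * ε := by
      rw [hε₁, mul_div_assoc']
      rw [div_le_iff₀ (by positivity)]
      nlinarith [mul_pos hpi hε]
    linarith
  unfold av
  rw [intervalIntegral.integral_of_le (by positivity), integral_Ioc_eq_integral_Ioo]
  have htot : ∫ θ in Ioo (0 : ℝ) (2 * Real.pi), g (Complex.exp ((θ : ℂ) * Complex.I)) ≤
      2 * Real.pi * ε + (∑ t ∈ T₁, C t) * e := by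
    rw [hG] at hI hX hsum
    linarith
  rw [inv_mul_le_iff₀ (by positivity)]
  refine htot.trans ?_
  have h9 : 0 ≤ (∑ t ∈ T₁, C t) * e :=
    mul_nonneg (Finset.sum_nonneg fun t _ => (hC t).le) he
  have h10 : 1 ≤ 2 * Real.pi := by
    have := Real.pi_gt_three
    linarith
  nlinarith

end Pool.Agent.H35.EN
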